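import Pool.Agent.V5helper10.GK.Stm
import Pool.Agent.V5helper10.KSC.All
import Pool.Agent.V5helper41.KSC.G6
import Pool.Agent.V5helper77.KSC.G4
import Pool.Agent.Y133.Half.TateSS

/-!
# Project GK, job BAS: a basis of the cohomology adapted to a basis of the transcendental part
-/

set_option linter.unusedSectionVars false

open CategoryTheory AlgebraicGeometry TensorProduct

universe u

namespace Pool.Agent.V5helper81.GK

open Module Matrix
open Pool.Agent.H914 Pool.Agent.H914.VarClass Pool.Agent.H914.VarClass.Obj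
  Pool.Agent.H914.WeilCohomology
open Pool.Agent.Y133.Half Pool.Agent.Y121.AH
open Pool.Agent.N996.BP Pool.Agent.N996.BP.Geo
open Pool.Agent.V5helper10.KSC

variable {k : Type u} [Field k] {𝒱 : VarClass k} {ops : CycleOps 𝒱} {T : HodgeTheory ops}
  {X : 𝒱.Obj} {D : T.W.H X}
variable {ι : Type} [Fintype ι] [DecidableEq ι]

/-- The codimensions of the algebraic basis vectors. -/
def codI (M : Dat T X D ι) (j : ι) : ℕ := if j = M.o then 0 else if j = M.p then 2 else 1

lemma alg_e (hK : K3G T X D) (M : Dat T X D ι) {j : ι} (hj : j ∉ M.tt) :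
    M.e j ∈ spanCycles T.W X (codI M j) := by
  by_cases h1 : j = M.o
  · subst h1
    have h : M.e M.o ∈ (algSys T.W).C X := by
      rw [M.hB.one]; exact (algSys T.W).one X
    rw [codI, if_pos rfl]
    refine spanCycles_of_algSpan h ?_
    rw [M.hB.one]
    exact T.W.one_mem X
  by_cases h2 : j = M.p
  · subst h2
    rw [codI, if_neg h1, if_pos rfl]
    exact spanCycles_of_algSpan (Pool.Agent.V5helper77.KSC.ep_alg hK M) M.hB.pt
  · rw [codI, if_neg h1, if_neg h2]
    have h3 := M.hB.hdg j hj h1 h2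
    exact spanCycles_of_algSpan (hK.lef _ h3) h3.1

lemma hdg_e (hK : K3G T X D) (M : Dat T X D ι) {j : ι} (hj : j ∉ M.tt) :
    IsHodge T X (codI M j) (M.e j) :=
  ClassPred.span_le (Q := hodgePred T) (alg_e hK M hj)

lemma tr_e_tra (hK : K3G T X D) (M : Dat T X D ι) {j : ι} (hj : j ∉ M.tt) {v : T.W.H X}
    (hv : v ∈ TrA T X) : T.W.tr X (M.e j * v) = 0 := by
  have hd := hK.dim
  by_cases h1 : j = M.o
  · subst h1
    rw [M.hB.one, one_mul]
    exact T.W.tr_eq_zero hv.1 (by omega)
  by_cases h2 : j = M.p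
  · subst h2
    exact T.W.tr_eq_zero (T.W.mul_mem M.hB.pt hv.1) (by omega)
  · have h3 := M.hB.hdg j hj h1 h2
    have h4 : M.e j * v = v * M.e j := PH.even_comm (PH.of' (i := 2) rfl h3.1) v
    rw [h4]
    exact hv.2 _ h3

theorem t_BAS : Pool.Agent.V5helper10.GK.S_BAS.{u} := by
  intro k _ 𝒱 ops T X Dv hK r e he hspan
  obtain ⟨ι, hι1, hι2, ⟨M⟩⟩ := Pool.Agent.V5helper10.KSC.All.h_dat T X Dv hK
  have hcard : M.tt.card = r := by
    rw [Pool.Agent.V5helper41.KSC.G6.tra_finrank hK.dim M.hB, ← hspan,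
      finrank_span_eq_card he, Fintype.card_fin]
  let C : Type := {i : ι // i ∉ M.tt}
  let σ : Fin (Fintype.card C) ≃ C := (Fintype.equivFin C).symm
  let F : Fin (Fintype.card C) ⊕ Fin r → T.W.H X := Sum.elim (fun i => M.e (σ i)) e
  have hC : Fintype.card C + M.tt.card = Fintype.card ι := by
    have h1 : Fintype.card C = Fintype.card ι - M.tt.card := by
      rw [← Fintype.card_coe M.tt]
      exact Fintype.card_subtype_compl (fun i => i ∈ M.tt)
    have h2 : M.tt.card ≤ Fintype.card ι := Finset.card_le_univ _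
    omega
  have hF1 : ⊤ ≤ Submodule.span T.W.K (Set.range F) := by
    rw [← M.e.span_eq, Submodule.span_le]
    rintro _ ⟨j, rfl⟩
    by_cases hj : j ∈ M.tt
    · have h1 : M.e j ∈ Submodule.span T.W.K (Set.range e) := by
        rw [hspan]; exact M.hB.tra j hj
      refine Submodule.span_mono ?_ h1
      rintro _ ⟨a, rfl⟩
      exact ⟨Sum.inr a, rfl⟩
    · refine Submodule.subset_span ⟨Sum.inl (σ.symm ⟨j, hj⟩), ?_⟩
      show M.e (σ (σ.symm ⟨j, hj⟩)) = M.e j
      rw [Equiv.apply_symm_apply]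
  have hF2 : Fintype.card (Fin (Fintype.card C) ⊕ Fin r) = finrank T.W.K (T.W.H X) := by
    rw [finrank_eq_card_basis M.e, Fintype.card_sum, Fintype.card_fin, Fintype.card_fin]
    omega
  refine ⟨Fintype.card C, basisOfTopLeSpanOfCardEqFinrank F hF1 hF2,
    fun i => codI M (σ i), ?_, ?_, ?_, ?_⟩
  · intro a
    rw [coe_basisOfTopLeSpanOfCardEqFinrank]
    rfl
  · intro i
    rw [coe_basisOfTopLeSpanOfCardEqFinrank]
    exact hdg_e hK M (σ i).2
  · intro i
    rw [coe_basisOfTopLeSpanOfCardEqFinrank]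
    exact alg_e hK M (σ i).2
  · intro i a
    rw [coe_basisOfTopLeSpanOfCardEqFinrank]
    refine tr_e_tra hK M (σ i).2 ?_
    rw [← hspan]
    exact Submodule.subset_span ⟨a, rfl⟩

end Pool.Agent.V5helper81.GK
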